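import Pool.Agent.Run7.h358.PL.Iface

set_option autoImplicit false

namespace Pool.Agent.Run7.h286.PL2.EQV

open Pool.Agent.Run7.h358.PL

theorem len_supp {ι : Type} (l : List (ι × ι)) : (supp l).length = 2 * l.length := by
  induction l with
  | nil => simp [supp]
  | cons p l ih =>
    unfold supp at ih ⊢
    rw [List.flatMap_cons, List.length_append, ih]
    simp
    ring

theorem main : S_EQV := by
  intro ι _ _ m l hc hl
  obtain ⟨hn, hm⟩ := hl
  have h1 : (supp l).length = Fintype.card ι := by
    rw [← List.toFinset_card_of_nodup hn]
    have : (supp l).toFinset = Finset.univ := by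
      ext k
      rw [List.mem_toFinset]
      exact hm k
    rw [this]
    rfl
  have h : l.length = m := by
    have := len_supp l
    omega
  refine ⟨h, ?_⟩
  subst h
  unfold supp at hn
  rw [List.nodup_flatMap] at hn
  obtain ⟨hn1, hn2⟩ := hn
  let g : Fin l.length × Fin 2 → ι := fun x => if x.2 = 0 then (l.get x.1).1 else (l.get x.1).2
  have hmem : ∀ x : Fin l.length × Fin 2, g x ∈ [(l.get x.1).1, (l.get x.1).2] := by
    intro x
    simp only [g]
    split_ifs <;> simp
  have hg : Function.Injective g := by
    rintro ⟨i, a⟩ ⟨j, b⟩ hab
    have hij : i = j := by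
      rcases lt_trichotomy i j with h | h | h
      · exfalso
        have h3 := List.pairwise_iff_get.1 hn2 i j h
        have h4 := hmem (i, a)
        have h5 := hmem (j, b)
        rw [← hab] at h5
        exact h3 h4 h5
      · exact h
      · exfalso
        have h3 := List.pairwise_iff_get.1 hn2 j i h
        have h4 := hmem (i, a)
        have h5 := hmem (j, b)
        rw [← hab] at h5
        exact h3 h5 h4
    subst hij
    have h3 := hn1 (l.get i) (List.get_mem l i)
    have h4 : (l.get i).1 ≠ (l.get i).2 := by
      intro h
      rw [h] at h3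
      simp at h3
    have hab' : a = b := by
      simp only [g] at hab
      fin_cases a <;> fin_cases b <;> simp at hab ⊢
      · exact h4 hab
      · exact h4 hab.symm
    rw [hab']
  have hb : Function.Bijective g := by
    rw [Fintype.bijective_iff_injective_and_card]
    refine ⟨hg, ?_⟩
    rw [Fintype.card_prod, Fintype.card_fin, Fintype.card_fin, hc]
    ring
  refine ⟨Equiv.ofBijective g hb, ?_⟩
  intro i
  refine ⟨?_, ?_⟩
  · simp [g]
  · simp [g]

end Pool.Agent.Run7.h286.PL2.EQV
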